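import Pool.Agent.TH192.MU.TwZ

set_option autoImplicit false
set_option linter.unusedSectionVars false
set_option linter.unusedVariables false

/-! # The covers of the sets of jets of a polynomial which is homogeneous for integer weights -/

namespace Pool.Agent.Run7.h827.HL

open MvPolynomial Pool.Agent.W428.MOT Pool.Agent.TH192.DT Pool.Agent.TH192.MT Pool.Agent.TH192.MU

section cov

variable {σ : Type} [Fintype σ]

/-- `f` is homogeneous of degree `g` for the integer weights `c` of the variables, which may be negative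
or zero. -/
def HomW (f : MvPolynomial σ ℂ) (c : σ → ℤ) (g : ℤ) : Prop :=
  ∀ m ∈ f.support, ∑ i, (m i : ℤ) * c i = g

theorem prod_zpow {F : Type} [Field F] {μ : F} (hμ : μ ≠ 0) (s : Finset σ) (a : σ → ℤ) :
    ∏ i ∈ s, μ ^ a i = μ ^ ∑ i ∈ s, a i := by
  classical
  induction s using Finset.induction_on with
  | empty => simp
  | insert t s ht ih => rw [Finset.prod_insert ht, Finset.sum_insert ht, ih, zpow_add₀ hμ]

theorem HomW.scale {f : MvPolynomial σ ℂ} {c : σ → ℤ} {g : ℤ} (h : HomW f c g)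
    {μ : AlgebraicClosure ℂ} (hμ : μ ≠ 0) (x : σ → PowerSeries (AlgebraicClosure ℂ)) :
    aeval (fun i => PowerSeries.C (μ ^ c i) * x i) f = PowerSeries.C (μ ^ g) * aeval x f := by
  rw [aeval_def, aeval_def, eval₂_eq', eval₂_eq', Finset.mul_sum]
  refine Finset.sum_congr rfl fun m hm => ?_
  have h1 : ∏ i, (PowerSeries.C (μ ^ c i) * x i) ^ m i =
      PowerSeries.C (μ ^ g) * ∏ i, x i ^ m i := by
    rw [← h m hm, ← prod_zpow hμ, map_prod, ← Finset.prod_mul_distrib]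
    refine Finset.prod_congr rfl fun i _ => ?_
    rw [mul_pow, ← map_pow]
    congr 2
    rw [← zpow_natCast, ← zpow_mul, mul_comm]
  rw [h1]
  ring

theorem aeval_scW {f : MvPolynomial σ ℂ} {c : σ → ℤ} {g : ℤ} (h : HomW f c g) {d : ℕ}
    {μ : AlgebraicClosure ℂ} (hμ : μ ≠ 0) (z : Pt ℂ (σ × Fin (d + 1))) :
    aeval (ar (sc c μ z)) f = PowerSeries.C (μ ^ g) * aeval (ar z) f := by
  rw [ar_sc]
  exact h.scale hμ (ar z)

theorem mem_JetC (f : MvPolynomial σ ℂ) (k d : ℕ) (z : Pt ℂ (Unit ⊕ σ × Fin (d + 1))) :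
    z ∈ JetC f k d ↔ z (Sum.inl ()) ≠ 0 ∧
      (∀ j < d, PowerSeries.coeff j (aeval (ar fun i => z (Sum.inr i)) f) = 0) ∧
      PowerSeries.coeff d (aeval (ar fun i => z (Sum.inr i)) f) = z (Sum.inl ()) ^ k := by
  unfold JetC JetS
  simp only [Set.mem_ofPred_eq, Set.mem_univ, true_and]

theorem constr_JetC (f : MvPolynomial σ ℂ) (k d : ℕ) : Constr (JetC f k d) := by
  have h1 : ∀ j, IsPF fun z : Pt ℂ (Unit ⊕ σ × Fin (d + 1)) =>
      PowerSeries.coeff j (aeval (ar fun i => z (Sum.inr i)) f) := fun j =>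
    (pf_ar f j).comp (fun z : Pt ℂ (Unit ⊕ σ × Fin (d + 1)) => fun i => z (Sum.inr i))
      fun i => IsPF.coord _
  unfold JetC JetS
  exact Constr.and (Constr.not (Constr.eqz (IsPF.coord _)))
    (Constr.and (Constr.const _) (Constr.and (Constr.allLt _ fun j _ => Constr.eqz (h1 j))
    (Constr.eq (h1 d) ((IsPF.coord _).pow k))))

/-- the product of the `k`-fold cover with the multiplicative group -/
def GJ (f : MvPolynomial σ ℂ) (k d : ℕ) : Set (Pt ℂ (Fin 1 ⊕ (Unit ⊕ σ × Fin (d + 1)))) :=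
  {z | (fun i => z (Sum.inl i)) ∈ {z : Pt ℂ (Fin 1) | z 0 ≠ 0} ∧
    (fun i => z (Sum.inr i)) ∈ JetC f k d}

theorem constr_gm : Constr {z : Pt ℂ (Fin 1) | z 0 ≠ 0} :=
  Constr.not (Constr.eqz (IsPF.coord 0))

theorem constr_GJ (f : MvPolynomial σ ℂ) (k d : ℕ) : Constr (GJ f k d) :=
  Constr.and (constr_gm.preimage
    (fun z : Pt ℂ (Fin 1 ⊕ (Unit ⊕ σ × Fin (d + 1))) => fun i => z (Sum.inl i))
    fun i => IsPF.coord _)
    ((constr_JetC f k d).preimage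
    (fun z : Pt ℂ (Fin 1 ⊕ (Unit ⊕ σ × Fin (d + 1))) => fun i => z (Sum.inr i))
    fun i => IsPF.coord _)

theorem chi_GJ {R : Type} [CommRing R] (M : Meas ℂ R) (f : MvPolynomial σ ℂ) (k d : ℕ) :
    M.χ _ (GJ f k d) = (M.L - 1) * M.χ _ (JetC f k d) := by
  rw [← Pool.Agent.W417.MT.Free.chi_gm M, ← M.prod _ _ constr_gm (constr_JetC f k d)]
  rfl

theorem zp_mul {F : Type} [Field F] {a b : F} (ha : a ≠ 0) (hb : b ≠ 0) (p q r s m n : ℤ) :
    (a ^ p * b ^ q) ^ m * (a ^ r * b ^ s) ^ n = a ^ (p * m + r * n) * b ^ (q * m + s * n) := by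
  rw [mul_zpow, mul_zpow, ← zpow_mul, ← zpow_mul, ← zpow_mul, ← zpow_mul, zpow_add₀ ha,
    zpow_add₀ hb]
  ring

/-- **The classes of the covers of a polynomial which is homogeneous of the degree `g ≠ 0` for integer
weights**: the class of the `k`-fold cover depends only on `gcd(k, g)`. -/
theorem chi_JetC_gcd {R : Type} [CommRing R] (M : Meas ℂ R) {f : MvPolynomial σ ℂ} {c : σ → ℤ}
    {g : ℕ} (h : HomW f c g) {k : ℕ} (hk : 0 < k) (d : ℕ) :
    (M.L - 1) * M.χ _ (JetC f k d) = (M.L - 1) * M.χ _ (JetC f (Nat.gcd k g) d) := by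
  rw [← chi_GJ, ← chi_GJ]
  set j := Nat.gcd k g with hj
  have hpos : 0 < j := Nat.gcd_pos_of_pos_left g hk
  obtain ⟨k', hk'⟩ : j ∣ k := Nat.gcd_dvd_left k g
  obtain ⟨g', hg'⟩ : j ∣ g := Nat.gcd_dvd_right k g
  have hb : (k' : ℤ) * Nat.gcdA k g + (g' : ℤ) * Nat.gcdB k g = 1 := by
    have h1 := Nat.gcd_eq_gcd_ab k g
    rw [← hj] at h1
    have h2 : (k : ℤ) = j * k' := by exact_mod_cast hk'
    have h3 : (g : ℤ) = j * g' := by exact_mod_cast hg'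
    have h4 : (j : ℤ) * ((k' : ℤ) * Nat.gcdA k g + (g' : ℤ) * Nat.gcdB k g) = j * 1 := by
      rw [mul_one]
      calc (j : ℤ) * ((k' : ℤ) * Nat.gcdA k g + (g' : ℤ) * Nat.gcdB k g)
          = (j * k' : ℤ) * Nat.gcdA k g + (j * g' : ℤ) * Nat.gcdB k g := by ring
        _ = j := by rw [← h2, ← h3]; exact h1.symm
    exact mul_left_cancel₀ (by exact_mod_cast hpos.ne') h4
  set A := Nat.gcdA k g
  set B := Nat.gcdB k g
  have hkz : (k : ℤ) = k' * j := by rw [hk']; push_cast; ring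
  have hgz : (g : ℤ) = g' * j := by rw [hg']; push_cast; ring
  refine M.iso _ _ (constr_GJ f k d) (constr_GJ f j d)
    (fun z => Sum.elim (fun _ => z (Sum.inl 0) ^ (-A) * z (Sum.inr (Sum.inl ())) ^ B)
      (Sum.elim (fun _ => z (Sum.inl 0) ^ (g' : ℤ) * z (Sum.inr (Sum.inl ())) ^ (k' : ℤ))
        (sc c (z (Sum.inl 0)) fun i => z (Sum.inr (Sum.inr i)))))
    (fun y => Sum.elim (fun _ => y (Sum.inl 0) ^ (-(k' : ℤ)) * y (Sum.inr (Sum.inl ())) ^ B)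
      (Sum.elim (fun _ => y (Sum.inl 0) ^ (g' : ℤ) * y (Sum.inr (Sum.inl ())) ^ A)
        (sc c (y (Sum.inl 0) ^ (-(k' : ℤ)) * y (Sum.inr (Sum.inl ())) ^ B)⁻¹
          fun i => y (Sum.inr (Sum.inr i))))) ?_ ?_ ?_ ?_ ?_ ?_
  · have e1 : ∀ m : ℤ, IsRF (GJ f k d) fun z => z (Sum.inl 0) ^ m := fun m =>
      rf_zpow ((IsPF.coord _).isRF _) (fun z hz => hz.1) m
    have e2 : ∀ m : ℤ, IsRF (GJ f k d) fun z => z (Sum.inr (Sum.inl ())) ^ m := fun m =>
      rf_zpow ((IsPF.coord _).isRF _) (fun z (hz : z ∈ GJ f k d) =>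
        ((mem_JetC f k d _).1 hz.2).1) m
    rintro (i | i | q)
    · exact (e1 _).mul (e2 _)
    · exact (e1 _).mul (e2 _)
    · exact (e1 _).mul ((IsPF.coord _).isRF _)
  · have e1 : ∀ m : ℤ, IsRF (GJ f j d) fun z => z (Sum.inl 0) ^ m := fun m =>
      rf_zpow ((IsPF.coord _).isRF _) (fun z hz => hz.1) m
    have e2 : ∀ m : ℤ, IsRF (GJ f j d) fun z => z (Sum.inr (Sum.inl ())) ^ m := fun m =>
      rf_zpow ((IsPF.coord _).isRF _) (fun z (hz : z ∈ GJ f j d) =>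
        ((mem_JetC f j d _).1 hz.2).1) m
    have e3 : ∀ z ∈ GJ f j d, z (Sum.inl 0) ^ (-(k' : ℤ)) * z (Sum.inr (Sum.inl ())) ^ B ≠ 0 :=
      fun z hz => mul_ne_zero (zpow_ne_zero _ hz.1)
        (zpow_ne_zero _ ((mem_JetC f j d _).1 hz.2).1)
    rintro (i | i | q)
    · exact (e1 _).mul (e2 _)
    · exact (e1 _).mul (e2 _)
    · exact (rf_zpow (rf_inv ((e1 _).mul (e2 _)) e3) (fun z hz => inv_ne_zero (e3 z hz)) _).mul
        ((IsPF.coord _).isRF _)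
  · rintro z ⟨ha, hz⟩
    obtain ⟨hb', h2, h3⟩ := (mem_JetC f k d _).1 hz
    have ha' : z (Sum.inl 0) ≠ 0 := ha
    change z (Sum.inr (Sum.inl ())) ≠ 0 at hb'
    refine ⟨mul_ne_zero (zpow_ne_zero _ ha') (zpow_ne_zero _ hb'), (mem_JetC f j d _).2
      ⟨mul_ne_zero (zpow_ne_zero _ ha') (zpow_ne_zero _ hb'), fun i hi => ?_, ?_⟩⟩
    · change PowerSeries.coeff i (aeval (ar (sc c (z (Sum.inl 0)) fun i =>
        z (Sum.inr (Sum.inr i)))) f) = 0
      rw [aeval_scW h ha', PowerSeries.coeff_C_mul, h2 i hi, mul_zero]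
    · change PowerSeries.coeff d (aeval (ar (sc c (z (Sum.inl 0)) fun i =>
        z (Sum.inr (Sum.inr i)))) f) =
        (z (Sum.inl 0) ^ (g' : ℤ) * z (Sum.inr (Sum.inl ())) ^ (k' : ℤ)) ^ j
      rw [aeval_scW h ha', PowerSeries.coeff_C_mul, h3]
      change z (Sum.inl 0) ^ (g : ℤ) * z (Sum.inr (Sum.inl ())) ^ k = _
      rw [← zpow_natCast _ j, mul_zpow, ← zpow_mul, ← zpow_mul, ← hgz, ← hkz, zpow_natCast _ k]
  · rintro y ⟨ha, hy⟩
    obtain ⟨hb', h2, h3⟩ := (mem_JetC f j d _).1 hy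
    have ha' : y (Sum.inl 0) ≠ 0 := ha
    change y (Sum.inr (Sum.inl ())) ≠ 0 at hb'
    have hz : y (Sum.inl 0) ^ (-(k' : ℤ)) * y (Sum.inr (Sum.inl ())) ^ B ≠ 0 :=
      mul_ne_zero (zpow_ne_zero _ ha') (zpow_ne_zero _ hb')
    refine ⟨hz, (mem_JetC f k d _).2
      ⟨mul_ne_zero (zpow_ne_zero _ ha') (zpow_ne_zero _ hb'), fun i hi => ?_, ?_⟩⟩
    · change PowerSeries.coeff i (aeval (ar (sc c (y (Sum.inl 0) ^ (-(k' : ℤ)) *
        y (Sum.inr (Sum.inl ())) ^ B)⁻¹ fun i => y (Sum.inr (Sum.inr i)))) f) = 0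
      rw [aeval_scW h (inv_ne_zero hz), PowerSeries.coeff_C_mul, h2 i hi, mul_zero]
    · change PowerSeries.coeff d (aeval (ar (sc c (y (Sum.inl 0) ^ (-(k' : ℤ)) *
        y (Sum.inr (Sum.inl ())) ^ B)⁻¹ fun i => y (Sum.inr (Sum.inr i)))) f) =
        (y (Sum.inl 0) ^ (g' : ℤ) * y (Sum.inr (Sum.inl ())) ^ A) ^ k
      rw [aeval_scW h (inv_ne_zero hz), PowerSeries.coeff_C_mul, h3]
      change ((y (Sum.inl 0) ^ (-(k' : ℤ)) * y (Sum.inr (Sum.inl ())) ^ B)⁻¹) ^ (g : ℤ) *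
        y (Sum.inr (Sum.inl ())) ^ j = _
      have h4 : y (Sum.inr (Sum.inl ())) ^ (j : ℤ) = (y (Sum.inl 0) ^ (-(k' : ℤ)) *
          y (Sum.inr (Sum.inl ())) ^ B) ^ (g : ℤ) * (y (Sum.inl 0) ^ (g' : ℤ) *
          y (Sum.inr (Sum.inl ())) ^ A) ^ (k : ℤ) := by
        rw [zp_mul ha' hb']
        have e1 : -(k' : ℤ) * g + g' * k = 0 := by rw [hkz, hgz]; ring
        have e2 : B * g + A * k = j := by
          rw [hkz, hgz]
          linear_combination (j : ℤ) * hb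
        rw [e1, e2, zpow_zero, one_mul]
      rw [← zpow_natCast _ j, ← zpow_natCast _ k, h4, ← mul_assoc, ← mul_zpow,
        inv_mul_cancel₀ hz, one_zpow, one_mul]
  · rintro z ⟨ha, hz⟩
    obtain ⟨hb', h2, h3⟩ := (mem_JetC f k d _).1 hz
    have ha' : z (Sum.inl 0) ≠ 0 := ha
    change z (Sum.inr (Sum.inl ())) ≠ 0 at hb'
    have e1 : (z (Sum.inl 0) ^ (-A) * z (Sum.inr (Sum.inl ())) ^ B) ^ (-(k' : ℤ)) *
        (z (Sum.inl 0) ^ (g' : ℤ) * z (Sum.inr (Sum.inl ())) ^ (k' : ℤ)) ^ B = z (Sum.inl 0) := by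
      rw [zp_mul ha' hb', show -A * -(k' : ℤ) + g' * B = 1 by linear_combination hb,
        show B * -(k' : ℤ) + k' * B = 0 by ring, zpow_one, zpow_zero, mul_one]
    have e2 : (z (Sum.inl 0) ^ (-A) * z (Sum.inr (Sum.inl ())) ^ B) ^ (g' : ℤ) *
        (z (Sum.inl 0) ^ (g' : ℤ) * z (Sum.inr (Sum.inl ())) ^ (k' : ℤ)) ^ A =
        z (Sum.inr (Sum.inl ())) := by
      rw [zp_mul ha' hb', show -A * (g' : ℤ) + g' * A = 0 by ring,
        show B * (g' : ℤ) + k' * A = 1 by linear_combination hb, zpow_one, zpow_zero, one_mul]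
    funext i
    rcases i with i | i | q
    · rw [Subsingleton.elim i 0]
      exact e1
    · exact e2
    · change sc c ((z (Sum.inl 0) ^ (-A) * z (Sum.inr (Sum.inl ())) ^ B) ^ (-(k' : ℤ)) *
        (z (Sum.inl 0) ^ (g' : ℤ) * z (Sum.inr (Sum.inl ())) ^ (k' : ℤ)) ^ B)⁻¹
        (sc c (z (Sum.inl 0)) fun i => z (Sum.inr (Sum.inr i))) q = _
      rw [e1, sc_sc (inv_ne_zero ha') (inv_mul_cancel₀ ha')]
  · rintro y ⟨ha, hy⟩
    obtain ⟨hb', h2, h3⟩ := (mem_JetC f j d _).1 hy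
    have ha' : y (Sum.inl 0) ≠ 0 := ha
    change y (Sum.inr (Sum.inl ())) ≠ 0 at hb'
    have hz : y (Sum.inl 0) ^ (-(k' : ℤ)) * y (Sum.inr (Sum.inl ())) ^ B ≠ 0 :=
      mul_ne_zero (zpow_ne_zero _ ha') (zpow_ne_zero _ hb')
    have e1 : (y (Sum.inl 0) ^ (-(k' : ℤ)) * y (Sum.inr (Sum.inl ())) ^ B) ^ (-A) *
        (y (Sum.inl 0) ^ (g' : ℤ) * y (Sum.inr (Sum.inl ())) ^ A) ^ B = y (Sum.inl 0) := by
      rw [zp_mul ha' hb', show -(k' : ℤ) * -A + g' * B = 1 by linear_combination hb,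
        show B * -A + A * B = 0 by ring, zpow_one, zpow_zero, mul_one]
    have e2 : (y (Sum.inl 0) ^ (-(k' : ℤ)) * y (Sum.inr (Sum.inl ())) ^ B) ^ (g' : ℤ) *
        (y (Sum.inl 0) ^ (g' : ℤ) * y (Sum.inr (Sum.inl ())) ^ A) ^ (k' : ℤ) =
        y (Sum.inr (Sum.inl ())) := by
      rw [zp_mul ha' hb', show -(k' : ℤ) * (g' : ℤ) + g' * k' = 0 by ring,
        show B * (g' : ℤ) + A * k' = 1 by linear_combination hb, zpow_one, zpow_zero, one_mul]
    funext i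
    rcases i with i | i | q
    · rw [Subsingleton.elim i 0]
      exact e1
    · exact e2
    · change sc c (y (Sum.inl 0) ^ (-(k' : ℤ)) * y (Sum.inr (Sum.inl ())) ^ B)
        (sc c (y (Sum.inl 0) ^ (-(k' : ℤ)) * y (Sum.inr (Sum.inl ())) ^ B)⁻¹
        fun i => y (Sum.inr (Sum.inr i))) q = _
      rw [sc_sc hz (mul_inv_cancel₀ hz)]

end cov

end Pool.Agent.Run7.h827.HL
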