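import Pool.Agent.TH192.DT.Poles
import Mathlib.RingTheory.RootsOfUnity.Complex

set_option autoImplicit false

/-! # The holomorphy conjecture from the roots -/

namespace Pool.Agent.Run7.h827.HL

open Polynomial Pool.Agent.TH192.DT

/-- `ζ` is a root of unity of the order `r > 0` of the form `exp (2 π i α)`, `α` a root of `b`. -/
def OrderOf (b : ℂ[X]) (r : ℕ) : Prop :=
  0 < r ∧ ∃ α : ℂ, b.eval α = 0 ∧
    IsPrimitiveRoot (Complex.exp (2 * Real.pi * Complex.I * α)) r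

theorem order_of_roots {ι : Type} (ν N : ι → ℕ) (b : ℂ[X])
    (h : ∀ (x : ι) (l : ℕ), l < N x → b.eval (-((ν x : ℂ) + l) / N x) = 0) (x : ι)
    (hx : 0 < N x) : OrderOf b (N x) := by
  refine ⟨hx, ?_⟩
  obtain ⟨l, hl, k, hk⟩ : ∃ l, l < N x ∧ ∃ k : ℕ, ν x + l + 1 = N x * k := by
    refine ⟨(N x - (ν x + 1) % N x) % N x, Nat.mod_lt _ hx, ?_⟩
    have h1 : (ν x + (N x - (ν x + 1) % N x) % N x + 1) % N x = 0 := by
      have h2 : (ν x + 1) % N x < N x := Nat.mod_lt _ hx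
      rcases Nat.eq_zero_or_pos ((ν x + 1) % N x) with h3 | h3
      · rw [h3, Nat.sub_zero, Nat.mod_self, Nat.add_zero]
        exact h3
      · rw [Nat.mod_eq_of_lt (show N x - (ν x + 1) % N x < N x by omega)]
        have h4 : ν x + (N x - (ν x + 1) % N x) + 1
            = (ν x + 1) - (ν x + 1) % N x + N x := by
          have := Nat.mod_le (ν x + 1) (N x)
          omega
        rw [h4, Nat.add_mod_right]
        exact Nat.mod_eq_zero_of_dvd (Nat.dvd_sub_mod _)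
    exact ⟨_, (Nat.mul_div_cancel' (Nat.dvd_of_mod_eq_zero h1)).symm⟩
  refine ⟨-((ν x : ℂ) + l) / N x, h x l hl, ?_⟩
  have h5 : (-((ν x : ℂ) + l) / N x) = ((1 - (N x : ℤ) * k : ℤ) : ℂ) / (N x : ℂ) := by
    have h6 : ((ν x : ℂ) + l + 1) = N x * k := by exact_mod_cast hk
    congr 1
    push_cast
    linear_combination -h6
  rw [h5]
  refine Complex.isPrimitiveRoot_exp_of_isCoprime _ _ hx.ne' ?_
  exact ⟨1, (k : ℤ), by push_cast; ring⟩

/-- **Holomorphy.** If `d` divides the order of no `exp (2 π i α)`, `α` a root of `b`, then the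
twisted topological zeta functions are constant. -/
theorem hol_of_roots {ι : Type} [Fintype ι] (ν N : ι → ℕ) (b : ℂ[X])
    (h : ∀ (x : ι) (l : ℕ), l < N x → b.eval (-((ν x : ℂ) + l) / N x) = 0) (d : ℕ)
    (hd : ∀ r, OrderOf b r → ¬ d ∣ r) (χ : Finset ι → ℤ) :
    (∃ c : ℂ, twZ d ν N χ = RatFunc.C c) ∧
      ((∀ I : Finset ι, (∃ i ∈ I, N i = 0) → χ I = 0) → twZ d ν N χ = 0) := by
  classical
  have h0 : ∀ i, d ∣ N i → N i = 0 := by
    intro i hi
    by_contra hne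
    exact hd _ (order_of_roots ν N b h i (Nat.pos_of_ne_zero hne)) hi
  unfold twZ
  refine ⟨⟨∑ I ∈ Finset.univ.filter fun I : Finset ι => I.Nonempty ∧ ∀ i ∈ I, d ∣ N i,
    ((χ I : ℤ) : ℂ) * ∏ i ∈ I, ((ν i : ℂ))⁻¹, ?_⟩, fun h1 => ?_⟩
  · rw [map_sum]
    refine Finset.sum_congr (by congr) fun I hI => ?_
    rw [Finset.mem_filter] at hI
    rw [map_mul, map_prod]
    congr 1
    refine Finset.prod_congr rfl fun i hi => ?_
    rw [h0 i (hI.2.2 i hi), Nat.cast_zero, zero_mul, zero_add, map_inv₀, map_natCast]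
  · refine Finset.sum_eq_zero fun I hI => ?_
    rw [Finset.mem_filter] at hI
    obtain ⟨i, hi⟩ := hI.2.1
    rw [h1 I ⟨i, hi, h0 i (hI.2.2 i hi)⟩, Int.cast_zero, map_zero, zero_mul]

end Pool.Agent.Run7.h827.HL
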