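import Pool.Agent.H628R4.TP.Defs

set_option autoImplicit false
set_option linter.unusedSectionVars false
set_option linter.unusedVariables false

/-! # The roots of the Bernstein-Sato polynomial which come from a multiple factor -/

namespace Pool.Agent.Run7.h827.HL

open MvPolynomial

variable {σ : Type}

theorem exists_deriv_coeffC (i : σ) (p : Polynomial (MvPolynomial σ ℂ)) :
    ∃ p' : Polynomial (MvPolynomial σ ℂ), ∀ z : ℂ,
      pderiv i (p.eval (C z : MvPolynomial σ ℂ)) = p'.eval (C z : MvPolynomial σ ℂ) := by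
  induction p using Polynomial.induction_on' with
  | add p q hp hq =>
    obtain ⟨p', hp⟩ := hp
    obtain ⟨q', hq⟩ := hq
    exact ⟨p' + q', fun n => by rw [Polynomial.eval_add, map_add, hp, hq, Polynomial.eval_add]⟩
  | monomial m a =>
    refine ⟨Polynomial.monomial m (pderiv i a), fun z => ?_⟩
    rw [Polynomial.eval_monomial, Polynomial.eval_monomial, ← C_pow, Derivation.leibniz,
      pderiv_C, smul_zero, zero_add, smul_eq_mul, mul_comm]

/-- the sequences `g n = r(n) f ^ n / (p h) ^ k`, `f = p ^ N h`, such that `r(s₀) p ^ M` is divisible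
by `p ^ k` -/
def Sq (p h : MvPolynomial σ ℂ) (N M : ℕ) (s₀ : ℂ) (g : ℕ → MvPolynomial σ ℂ) : Prop :=
  ∃ (k : ℕ) (r : Polynomial (MvPolynomial σ ℂ)) (v : MvPolynomial σ ℂ),
    (∀ n : ℕ, (p * h) ^ k * g n = r.eval (C (n : ℂ) : MvPolynomial σ ℂ) * (p ^ N * h) ^ n) ∧
      r.eval (C s₀ : MvPolynomial σ ℂ) * p ^ M = p ^ k * v

theorem mulpow_deriv (F : MvPolynomial σ ℂ) (i : σ) (m : ℕ) :
    F * pderiv i (F ^ m) = C (m : ℂ) * F ^ m * pderiv i F := by
  rw [Derivation.leibniz_pow, smul_eq_mul, nsmul_eq_mul]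
  have h4 : ((m : ℕ) : MvPolynomial σ ℂ) = C (m : ℂ) := by simp
  rw [h4]
  rcases m with _ | m
  · simp
  · rw [Nat.add_sub_cancel, pow_succ]; ring

theorem sq_act (p h : MvPolynomial σ ℂ) (N M : ℕ) (s₀ : ℂ) (hs : (N : ℂ) * s₀ = M)
    (Q : Module.End ℂ (MvPolynomial σ ℂ)) (hQ : Q ∈ Pool.Agent.H628R4.TP.weylS σ) :
    ∀ g : ℕ → MvPolynomial σ ℂ, Sq p h N M s₀ g → Sq p h N M s₀ fun n => Q (g n) := by
  classical
  induction hQ using Algebra.adjoin_induction with
  | mem Q hQ =>
    intro g hg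
    obtain ⟨k, r, v, hr, hv⟩ := hg
    rcases hQ with ⟨i, rfl⟩ | ⟨i, rfl⟩
    · refine ⟨k, Polynomial.C (X i) * r, X i * v, fun n => ?_, ?_⟩
      · change (p * h) ^ k * (X i * g n) = _
        rw [Polynomial.eval_mul, Polynomial.eval_C]
        linear_combination X i * hr n
      · rw [Polynomial.eval_mul, Polynomial.eval_C]
        linear_combination X i * hv
    · obtain ⟨p', hp'⟩ := exists_deriv_coeffC i r
      have hD : pderiv i (p * h) = p * pderiv i h + h * pderiv i p := by
        rw [Derivation.leibniz, smul_eq_mul, smul_eq_mul]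
      -- `(p h) ∂f = f T`
      have hT : p * h * pderiv i (p ^ N * h) =
          (p ^ N * h) * (C (N : ℂ) * h * pderiv i p + p * pderiv i h) := by
        rw [Derivation.leibniz, smul_eq_mul, smul_eq_mul]
        linear_combination h * h * mulpow_deriv p i N
      refine ⟨k + 1, Polynomial.C (p * h) * p' + Polynomial.X * r *
        Polynomial.C (C (N : ℂ) * h * pderiv i p + p * pderiv i h) -
        Polynomial.C (C (k : ℂ) * pderiv i (p * h)) * r,
        h * pderiv i v + (C s₀ - C (k : ℂ)) * pderiv i h * v, fun n => ?_, ?_⟩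
      · have h1 := congrArg (pderiv i) (hr n)
        rw [Derivation.leibniz, Derivation.leibniz, smul_eq_mul, smul_eq_mul, smul_eq_mul,
          smul_eq_mul, hp'] at h1
        have h2 := mulpow_deriv (p * h) i k
        have h3 : p * h * pderiv i ((p ^ N * h) ^ n) = C (n : ℂ) * (p ^ N * h) ^ n *
            (C (N : ℂ) * h * pderiv i p + p * pderiv i h) := by
          rcases n with _ | n
          · simp
          · have h4 : (((n + 1 : ℕ) : ℕ) : MvPolynomial σ ℂ) = C ((n + 1 : ℕ) : ℂ) := by simp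
            rw [Derivation.leibniz_pow, smul_eq_mul, nsmul_eq_mul, Nat.add_sub_cancel, h4,
              pow_succ]
            linear_combination C ((n + 1 : ℕ) : ℂ) * (p ^ N * h) ^ n * hT
        change (p * h) ^ (k + 1) * pderiv i (g n) = _
        rw [Polynomial.eval_sub, Polynomial.eval_add, Polynomial.eval_mul, Polynomial.eval_mul,
          Polynomial.eval_mul, Polynomial.eval_mul, Polynomial.eval_C, Polynomial.eval_C,
          Polynomial.eval_C, Polynomial.eval_X, pow_succ]
        linear_combination (p * h) * h1 + (r.eval (C (n : ℂ) : MvPolynomial σ ℂ)) * h3 -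
          g n * h2 - C (k : ℂ) * pderiv i (p * h) * hr n
      · have h1 := congrArg (pderiv i) hv
        rw [Derivation.leibniz, Derivation.leibniz, smul_eq_mul, smul_eq_mul, smul_eq_mul,
          smul_eq_mul, hp'] at h1
        have h2 := mulpow_deriv p i k
        have h3 := mulpow_deriv p i M
        have h4 : (C (N : ℂ) * C s₀ : MvPolynomial σ ℂ) = C (M : ℂ) := by rw [← C_mul, hs]
        rw [Polynomial.eval_sub, Polynomial.eval_add, Polynomial.eval_mul, Polynomial.eval_mul,
          Polynomial.eval_mul, Polynomial.eval_mul, Polynomial.eval_C, Polynomial.eval_C,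
          Polynomial.eval_C, Polynomial.eval_X, hD, pow_succ]
        linear_combination (p * h) * h1 - h * (r.eval (C s₀ : MvPolynomial σ ℂ)) * h3 +
          h * v * h2 + (C s₀ * p * pderiv i h - C (k : ℂ) * (p * pderiv i h + h * pderiv i p)) * hv +
          h * pderiv i p * (r.eval (C s₀ : MvPolynomial σ ℂ)) * p ^ M * h4
  | algebraMap c =>
    intro g hg
    obtain ⟨k, r, v, hr, hv⟩ := hg
    refine ⟨k, Polynomial.C (C c) * r, C c * v, fun n => ?_, ?_⟩
    · change (p * h) ^ k * (c • g n) = _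
      rw [Polynomial.eval_mul, Polynomial.eval_C, ← C_mul']
      linear_combination C c * hr n
    · rw [Polynomial.eval_mul, Polynomial.eval_C]
      linear_combination C c * hv
  | add Q1 Q2 _ _ h1 h2 =>
    intro g hg
    obtain ⟨k1, r1, v1, h1, h1'⟩ := h1 g hg
    obtain ⟨k2, r2, v2, h2, h2'⟩ := h2 g hg
    refine ⟨k1 + k2, Polynomial.C ((p * h) ^ k2) * r1 + Polynomial.C ((p * h) ^ k1) * r2,
      h ^ k2 * v1 + h ^ k1 * v2, fun n => ?_, ?_⟩
    · change (p * h) ^ (k1 + k2) * (Q1 (g n) + Q2 (g n)) = _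
      rw [Polynomial.eval_add, Polynomial.eval_mul, Polynomial.eval_mul,
        Polynomial.eval_C, Polynomial.eval_C, pow_add]
      linear_combination (p * h) ^ k2 * h1 n + (p * h) ^ k1 * h2 n
    · rw [Polynomial.eval_add, Polynomial.eval_mul, Polynomial.eval_mul,
        Polynomial.eval_C, Polynomial.eval_C, mul_pow, mul_pow, pow_add]
      linear_combination p ^ k2 * h ^ k2 * h1' + p ^ k1 * h ^ k1 * h2'
  | mul Q1 Q2 _ _ h1 h2 =>
    intro g hg
    exact h1 _ (h2 g hg)

/-- a polynomial with infinitely many zeros -/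
theorem eval_zero_allC (P : Polynomial (MvPolynomial σ ℂ))
    (h : ∀ n : ℕ, P.eval (C (n : ℂ) : MvPolynomial σ ℂ) = 0) : P = 0 := by
  apply Polynomial.eq_zero_of_infinite_isRoot
  refine Set.Infinite.mono ?_ (Set.infinite_range_of_injective
    (f := fun n : ℕ => (C (n : ℂ) : MvPolynomial σ ℂ)) ?_)
  · rintro _ ⟨n, rfl⟩
    exact h n
  · intro a b hab
    exact Nat.cast_injective (C_injective σ ℂ hab)

/-- **The roots of a multiple factor.** If `f = p ^ N h`, where `p` divides no power of `h`, then every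
polynomial `b` with a functional equation for `f` has the roots `-(1 + l) / N`, `0 ≤ l < N`. -/
theorem mult_roots (p h : MvPolynomial σ ℂ) (N : ℕ) (hp0 : p ≠ 0) (hp : ∀ K, ¬ p ∣ h ^ K)
    (b : Polynomial ℂ) (hb : Pool.Agent.H628R4.TP.IsBFunction (p ^ N * h) b) (l : ℕ)
    (hl : l < N) : b.eval (-((1 : ℂ) + l) / N) = 0 := by
  classical
  obtain ⟨P, hP⟩ := hb
  have hh0 : h ≠ 0 := fun h0 => hp 1 (by rw [h0, pow_one]; exact dvd_zero _)
  set M := N - 1 - l with hM
  set f := p ^ N * h with hf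
  have hf0 : f ≠ 0 := mul_ne_zero (pow_ne_zero _ hp0) hh0
  have hN : (N : ℂ) ≠ 0 := by
    have : 0 < N := by omega
    exact_mod_cast this.ne'
  set s₁ : ℂ := -((1 : ℂ) + l) / N with hs₁
  have hs : (N : ℂ) * (s₁ + 1) = M := by
    have h1 : ((M : ℕ) : ℂ) + 1 + l = N := by exact_mod_cast (by omega : M + 1 + l = N)
    rw [hs₁, mul_add, mul_div_cancel₀ _ hN]
    linear_combination -h1
  have h1 : ∀ m : ℕ, Sq p h N M (s₁ + 1) fun n =>
      (P m : Module.End ℂ (MvPolynomial σ ℂ)) (f ^ n) := fun m =>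
    sq_act p h N M (s₁ + 1) hs (P m).1 (P m).2 _ ⟨0, 1, p ^ M, fun n => by
      rw [pow_zero, one_mul, Polynomial.eval_one, one_mul], by
      rw [pow_zero, one_mul, Polynomial.eval_one, one_mul]⟩
  choose k r v hr hv using h1
  set K := ∑ m ∈ P.support, k m with hK
  have hkK : ∀ m ∈ P.support, k m ≤ K := fun m hm =>
    Finset.single_le_sum (f := k) (fun _ _ => Nat.zero_le _) hm
  set G : Polynomial (MvPolynomial σ ℂ) :=
    Polynomial.C ((p * h) ^ K) * (b.map C) -
      Polynomial.C f * ∑ m ∈ P.support, Polynomial.X ^ m *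
        (Polynomial.C ((p * h) ^ (K - k m)) * (r m).comp (Polynomial.X + 1)) with hG
  have hbe : ∀ c : ℂ, (b.map (C : ℂ →+* MvPolynomial σ ℂ)).eval (C c) = C (b.eval c) := by
    intro c
    rw [Polynomial.eval_map, Polynomial.eval₂_at_apply]
  have hGe : ∀ z : ℂ, G.eval (C z : MvPolynomial σ ℂ) = (p * h) ^ K * C (b.eval z) -
      f * ∑ m ∈ P.support, C z ^ m * ((p * h) ^ (K - k m) *
        (r m).eval (C (z + 1) : MvPolynomial σ ℂ)) := by
    intro z
    rw [hG, Polynomial.eval_sub, Polynomial.eval_mul, Polynomial.eval_mul, Polynomial.eval_C,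
      Polynomial.eval_C, hbe, Polynomial.eval_finsetSum]
    congr 2
    refine Finset.sum_congr rfl fun m _ => ?_
    rw [Polynomial.eval_mul, Polynomial.eval_mul, Polynomial.eval_pow, Polynomial.eval_X,
      Polynomial.eval_C, Polynomial.eval_comp, Polynomial.eval_add, Polynomial.eval_X,
      Polynomial.eval_one, C_add, C_1]
  have hG0 : G = 0 := by
    refine eval_zero_allC G fun n => ?_
    have h3 : f ^ n * G.eval (C (n : ℂ) : MvPolynomial σ ℂ) = 0 := by
      rw [hGe]
      have h6 : (p * h) ^ K * (C (b.eval (n : ℂ)) * f ^ n) = ∑ m ∈ P.support,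
          f ^ (n + 1) * (C (n : ℂ) ^ m * ((p * h) ^ (K - k m) *
            (r m).eval (C ((n : ℂ) + 1) : MvPolynomial σ ℂ))) := by
        rw [hP n, Finsupp.sum, Finset.mul_sum]
        refine Finset.sum_congr rfl fun m hm => ?_
        have h7 := hr m (n + 1)
        push_cast at h7
        have h8 : (p * h) ^ K = (p * h) ^ (K - k m) * (p * h) ^ k m := by
          rw [← pow_add, Nat.sub_add_cancel (hkK m hm)]
        rw [← C_mul', C_pow, h8]
        linear_combination (p * h) ^ (K - k m) * (C (n : ℂ)) ^ m * h7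
      rw [← Finset.mul_sum] at h6
      linear_combination h6
    exact (mul_eq_zero.1 h3).resolve_left (pow_ne_zero n hf0)
  have h10 := hGe s₁
  rw [hG0, Polynomial.eval_zero] at h10
  -- multiply by `p ^ M`
  have h11 : ∀ m ∈ P.support, p ^ M * (C s₁ ^ m * ((p * h) ^ (K - k m) *
      (r m).eval (C (s₁ + 1) : MvPolynomial σ ℂ))) =
      p ^ K * (C s₁ ^ m * (h ^ (K - k m) * v m)) := by
    intro m hm
    have h8 : p ^ K = p ^ (K - k m) * p ^ k m := by
      rw [← pow_add, Nat.sub_add_cancel (hkK m hm)]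
    rw [mul_pow, h8]
    linear_combination C s₁ ^ m * p ^ (K - k m) * h ^ (K - k m) * hv m
  have h12 : p ^ M * (p * h) ^ K * C (b.eval s₁) =
      f * (p ^ K * ∑ m ∈ P.support, C s₁ ^ m * (h ^ (K - k m) * v m)) := by
    rw [Finset.mul_sum, ← Finset.sum_congr rfl h11, ← Finset.mul_sum]
    linear_combination (-p ^ M) * h10
  have h13 : h ^ K * C (b.eval s₁) =
      p * (p ^ l * h * ∑ m ∈ P.support, C s₁ ^ m * (h ^ (K - k m) * v m)) := by
    have h14 : p ^ N = p ^ M * (p ^ l * p) := by
      rw [← pow_succ, ← pow_add]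
      congr 1
      omega
    have h15 : p ^ M * p ^ K * (h ^ K * C (b.eval s₁) -
        p * (p ^ l * h * ∑ m ∈ P.support, C s₁ ^ m * (h ^ (K - k m) * v m))) = 0 := by
      rw [hf, h14, mul_pow] at h12
      linear_combination h12
    exact sub_eq_zero.1 ((mul_eq_zero.1 h15).resolve_left
      (mul_ne_zero (pow_ne_zero _ hp0) (pow_ne_zero _ hp0)))
  by_contra hne
  apply hp K
  refine ⟨(p ^ l * h * ∑ m ∈ P.support, C s₁ ^ m * (h ^ (K - k m) * v m)) *
    C (b.eval s₁)⁻¹, ?_⟩
  rw [← mul_assoc, ← h13, mul_assoc, ← C_mul, mul_inv_cancel₀ hne, C_1, mul_one]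

end Pool.Agent.Run7.h827.HL
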