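import Pool.Agent.Run7.h827.HL.Van
import Pool.Agent.Run7.h827.HL.Mult
import Pool.Agent.Run7.h827.HL.Hol
import Pool.Agent.TH192.DT.Multi

set_option autoImplicit false
set_option linter.unusedSectionVars false
set_option linter.unusedVariables false

/-! # The holomorphy conjecture for polynomials with a torus action -/

namespace Pool.Agent.Run7.h827.HL

open MvPolynomial Pool.Agent.H628R4.TP Pool.Agent.W428.MOT Pool.Agent.TH192.DT
  Pool.Agent.TH192.MT Pool.Agent.TH192.MU

/-- Every twisted topological zeta function of `f` for the integer `e` is zero. (`E` is a realisation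
of the motivic ring `MK ℂ` in a domain, with `E 𝕃 ≠ 1`, and `ε ∘ E` stands for the Euler characteristic.) -/
def TwVanish {σ : Type} [Fintype σ] (f : MvPolynomial σ ℂ) (e : ℕ) : Prop :=
  ∀ (R : Type) [CommRing R] [IsDomain R] (E : MK ℂ →+* R) (ε : R →+* ℂ),
    E ((Lu ℂ : (MK ℂ)ˣ) : MK ℂ) ≠ 1 → ∀ Z : RatFunc ℂ, IsTwistedTop E ε f e Z → Z = 0

/-- The holomorphy conjecture for `f`, with `0` in the place of a polynomial: if `e` divides the order of
no root of unity `exp (2 π i α)`, `α` a root of `b`, then the twisted topological zeta functions of `f`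
for `e` are zero, for every `b` with a functional equation `b(s) f ^ s = P(s) f ^ (s + 1)`, for instance
the Bernstein-Sato polynomial. -/
def HolConj {σ : Type} [Fintype σ] (f : MvPolynomial σ ℂ) : Prop :=
  ∀ b : Polynomial ℂ, IsBFunction f b → ∀ e : ℕ, 0 < e → (∀ r, OrderOf b r → ¬ e ∣ r) →
    TwVanish f e

theorem homW_of {σ : Type} [Fintype σ] {f : MvPolynomial σ ℂ} {c : σ → ℤ} {g : ℤ}
    (h : IsWeightedHomogeneous c f g) : HomW f c g := by
  intro m hm
  rw [← h (mem_support_iff.1 hm), Finsupp.weight_apply, Finsupp.sum_fintype]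
  · refine Finset.sum_congr rfl fun i _ => ?_
    rw [nsmul_eq_mul]
  · intro i
    rw [zero_smul]

theorem tw_vanish {σ : Type} [Fintype σ] {f : MvPolynomial σ ℂ} {c : σ → ℤ} {g : ℕ} (hg : 0 < g)
    (h : IsWeightedHomogeneous c f (g : ℤ)) {e : ℕ} (he : 0 < e) (hne : ¬ e ∣ g) :
    TwVanish f e := by
  intro R _ _ E ε hu Z hZ
  exact twisted_zero hu hg (homW_of h) he hne hZ

/-- **The holomorphy conjecture.** -/
theorem hol_main {σ : Type} [Fintype σ] {f : MvPolynomial σ ℂ} {c : σ → ℤ} {g : ℕ} (hg : 0 < g)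
    (hf : IsWeightedHomogeneous c f (g : ℤ)) {p h : MvPolynomial σ ℂ} {N : ℕ}
    (hfp : f = p ^ N * h) (hN : 0 < N) (hgN : g ∣ N) (hp0 : p ≠ 0) (hp : ∀ K, ¬ p ∣ h ^ K) :
    HolConj f := by
  intro b hb e he hr
  have h1 : OrderOf b N := by
    rw [hfp] at hb
    exact order_of_roots (ι := Unit) (fun _ => 1) (fun _ => N) b (fun _ l hl => by
      rw [Nat.cast_one]
      exact mult_roots p h N hp0 hp b hb l hl) () hN
  exact tw_vanish hg hf he fun h2 => hr N h1 (h2.trans hgN)

/-! ### the forms over arbitrary ideals -/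

section fam

variable {σ T : Type} [Fintype σ] [Fintype T] [DecidableEq T] {κ : T → Type}
  [∀ t, Fintype (κ t)] [∀ t, DecidableEq (κ t)] (F : (t : T) → κ t → MvPolynomial σ ℂ)

theorem isW_rename {α β : Type} (w : α ⊕ β → ℤ) (hw : ∀ v, w (Sum.inr v) = 0)
    (h : MvPolynomial β ℂ) : IsWeightedHomogeneous w (rename (Sum.inr : β → α ⊕ β) h) 0 := by
  induction h using MvPolynomial.induction_on with
  | C a =>
    rw [rename_C]
    exact isWeightedHomogeneous_C w a
  | add p q hp hq =>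
    rw [map_add]
    exact hp.add hq
  | mul_X p i hp =>
    rw [map_mul, rename_X]
    have h1 := hp.mul (isWeightedHomogeneous_X ℂ w (Sum.inr i))
    rw [hw, add_zero] at h1
    exact h1

theorem isW_block (c : T → ℤ) (t : T) :
    IsWeightedHomogeneous (Sum.elim (fun q : Σ t, κ t => c q.1) fun _ : σ => (0 : ℤ))
      (blockForm F t) (c t) := by
  unfold blockForm
  refine IsWeightedHomogeneous.sum _ _ _ fun j _ => ?_
  have h1 := (isWeightedHomogeneous_X ℂ (Sum.elim (fun q : Σ t, κ t => c q.1) fun _ : σ => (0 : ℤ))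
    (Sum.inl ⟨t, j⟩)).mul (isW_rename (Sum.elim (fun q : Σ t, κ t => c q.1) fun _ : σ => (0 : ℤ))
      (fun _ => rfl) (F t j))
  rw [add_zero] at h1
  exact h1

theorem isW_powProd (c : T → ℤ) (a : T → ℕ) (h : MvPolynomial σ ℂ) :
    IsWeightedHomogeneous (Sum.elim (fun q : Σ t, κ t => c q.1) fun _ : σ => (0 : ℤ))
      (powProd a F * rename Sum.inr h) (∑ t, (a t : ℤ) * c t) := by
  have h1 : IsWeightedHomogeneous (Sum.elim (fun q : Σ t, κ t => c q.1) fun _ : σ => (0 : ℤ))
      (powProd a F) (∑ t, (a t : ℤ) * c t) := by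
    unfold powProd
    refine IsWeightedHomogeneous.prod _ _ _ fun t _ => ?_
    have h2 := (isW_block F c t).pow (a t)
    rw [nsmul_eq_mul] at h2
    exact h2
  have h3 := h1.mul (isW_rename _ (fun _ => rfl) h)
  rw [add_zero] at h3
  exact h3

theorem block_ne {t : T} (hne : ∃ j, F t j ≠ 0) : blockForm F t ≠ 0 := by
  obtain ⟨j, hj⟩ := hne
  intro h0
  -- put `y_{t,j} = 1` and the other ones `0`
  have h1 := congrArg (aeval (Sum.elim (fun q : Σ t, κ t => if q = ⟨t, j⟩ then
    (1 : MvPolynomial σ ℂ) else 0) fun v => X v)) h0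
  unfold blockForm at h1
  rw [map_sum, map_zero] at h1
  rw [Finset.sum_eq_single j] at h1
  · rw [map_mul, aeval_X, aeval_rename] at h1
    simp only [Sum.elim_inl, if_true, one_mul] at h1
    have h2 : (Sum.elim (fun q : Σ t, κ t => if q = ⟨t, j⟩ then
      (1 : MvPolynomial σ ℂ) else 0) fun v => X v) ∘ Sum.inr = (X : σ → MvPolynomial σ ℂ) := rfl
    rw [h2, aeval_X_left_apply] at h1
    exact hj h1
  · intro j' _ hj'
    rw [map_mul, aeval_X]
    have : (⟨t, j'⟩ : Σ t, κ t) ≠ ⟨t, j⟩ := fun h => hj' (by simpa using h)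
    simp only [Sum.elim_inl, if_neg this, zero_mul]
  · intro h
    exact (h (Finset.mem_univ _)).elim

/-- the homomorphism which puts the `y_{t₀,j} = 0` -/
noncomputable def kill (t₀ : T) :
    MvPolynomial ((Σ t, κ t) ⊕ σ) ℂ →ₐ[ℂ] MvPolynomial ((Σ t, κ t) ⊕ σ) ℂ :=
  aeval (Sum.elim (fun q : Σ t, κ t => if q.1 = t₀ then 0 else X (Sum.inl q))
    fun v => X (Sum.inr v))

theorem kill_rename (t₀ : T) (h : MvPolynomial σ ℂ) :
    kill (κ := κ) t₀ (rename Sum.inr h) = rename Sum.inr h := by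
  unfold kill
  rw [aeval_rename]
  have h2 : (Sum.elim (fun q : Σ t, κ t => if q.1 = t₀ then
    (0 : MvPolynomial ((Σ t, κ t) ⊕ σ) ℂ) else X (Sum.inl q)) fun v => X (Sum.inr v)) ∘ Sum.inr =
    (X ∘ Sum.inr : σ → MvPolynomial ((Σ t, κ t) ⊕ σ) ℂ) := rfl
  rw [h2, ← aeval_rename, aeval_X_left_apply]

theorem kill_block (t₀ t : T) : kill t₀ (blockForm F t) = if t = t₀ then 0 else blockForm F t := by
  unfold blockForm
  rw [map_sum]
  split_ifs with h
  · refine Finset.sum_eq_zero fun j _ => ?_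
    rw [map_mul, kill, aeval_X]
    simp only [Sum.elim_inl, if_pos h, zero_mul]
  · refine Finset.sum_congr rfl fun j _ => ?_
    rw [map_mul, kill_rename, kill, aeval_X]
    simp only [Sum.elim_inl, if_neg h]

/-- the rest of the product -/
noncomputable def rest (a : T → ℕ) (h : MvPolynomial σ ℂ) (t₀ : T) :
    MvPolynomial ((Σ t, κ t) ⊕ σ) ℂ :=
  (∏ t ∈ Finset.univ.erase t₀, blockForm F t ^ a t) * rename Sum.inr h

theorem kill_rest (a : T → ℕ) (h : MvPolynomial σ ℂ) (t₀ : T) :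
    kill t₀ (rest F a h t₀) = rest F a h t₀ := by
  unfold rest
  rw [map_mul, kill_rename, map_prod]
  congr 1
  refine Finset.prod_congr rfl fun t ht => ?_
  rw [map_pow, kill_block, if_neg (Finset.ne_of_mem_erase ht)]

theorem rest_ne (a : T → ℕ) {h : MvPolynomial σ ℂ} (hh : h ≠ 0) (hne : ∀ t, ∃ j, F t j ≠ 0)
    (t₀ : T) : rest F a h t₀ ≠ 0 := by
  refine mul_ne_zero (Finset.prod_ne_zero_iff.2 fun t _ => pow_ne_zero _ (block_ne F (hne t))) ?_
  rw [Ne, ← map_zero (rename (Sum.inr : σ → (Σ t, κ t) ⊕ σ)),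
    (rename_injective _ Sum.inr_injective).eq_iff]
  exact hh

theorem not_dvd_rest (a : T → ℕ) {h : MvPolynomial σ ℂ} (hh : h ≠ 0)
    (hne : ∀ t, ∃ j, F t j ≠ 0) (t₀ : T) (K : ℕ) : ¬ blockForm F t₀ ∣ rest F a h t₀ ^ K := by
  rintro ⟨q, hq⟩
  have h1 := congrArg (kill t₀) hq
  rw [map_pow, kill_rest, map_mul, kill_block, if_pos rfl, zero_mul] at h1
  exact pow_ne_zero K (rest_ne F a hh hne t₀) h1

theorem powProd_rest (a : T → ℕ) (h : MvPolynomial σ ℂ) (t₀ : T) :
    powProd a F * rename Sum.inr h = blockForm F t₀ ^ a t₀ * rest F a h t₀ := by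
  unfold powProd rest
  rw [← Finset.mul_prod_erase Finset.univ _ (Finset.mem_univ t₀), mul_assoc]

/-- **The holomorphy conjecture for the products of powers of forms over arbitrary ideals and of an
arbitrary polynomial.** -/
theorem hol_fam [Nonempty T] (a : T → ℕ) (ha : ∀ t, 0 < a t) {h : MvPolynomial σ ℂ} (hh : h ≠ 0)
    (hne : ∀ t, ∃ j, F t j ≠ 0) :
    HolConj (powProd a F * rename Sum.inr h) ∧
      ∀ e, 0 < e → (∃ t, ¬ e ∣ a t) → TwVanish (powProd a F * rename Sum.inr h) e := by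
  obtain ⟨t₀⟩ := ‹Nonempty T›
  obtain ⟨c, hc⟩ := exists_comb Finset.univ a
  have h1 := isW_powProd F c a h
  rw [hc] at h1
  have hg : 0 < Finset.univ.gcd a := by
    refine Nat.pos_of_ne_zero fun h0 => ?_
    have h2 := Finset.gcd_dvd (f := a) (Finset.mem_univ t₀)
    rw [h0, zero_dvd_iff] at h2
    exact (ha _).ne' h2
  refine ⟨hol_main hg h1 (powProd_rest F a h t₀) (ha t₀) (Finset.gcd_dvd (Finset.mem_univ t₀))
    (block_ne F (hne t₀)) (not_dvd_rest F a hh hne t₀), fun e he hdiv => ?_⟩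
  obtain ⟨t, ht⟩ := hdiv
  exact tw_vanish hg h1 he fun h2 => ht (h2.trans (Finset.gcd_dvd (Finset.mem_univ t)))

end fam

end Pool.Agent.Run7.h827.HL
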