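import Pool.Agent.Run7.h827.HL.Cov

set_option autoImplicit false
set_option linter.unusedSectionVars false
set_option linter.unusedVariables false

/-! # The vanishing of the twisted topological zeta functions -/

namespace Pool.Agent.Run7.h827.HL

open MvPolynomial Pool.Agent.W428.MOT Pool.Agent.TH192.DT Pool.Agent.TH192.MT Pool.Agent.TH192.MU

/-- the realisations of the zeta functions of the covers -/
theorem map_zetaC {σ : Type} [Fintype σ] {R : Type} [CommRing R] [IsDomain R] (E : MK ℂ →+* R)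
    (hu : E ((Lu ℂ : (MK ℂ)ˣ) : MK ℂ) ≠ 1) {f : MvPolynomial σ ℂ} {c : σ → ℤ} {g : ℕ}
    (h : HomW f c g) {k : ℕ} (hk : 0 < k) :
    PowerSeries.map E (zetaC f k) = PowerSeries.map E (zetaC f (Nat.gcd k g)) := by
  obtain ⟨M, hL, hM⟩ := exists_meas ℂ
  ext d
  rw [PowerSeries.coeff_map, PowerSeries.coeff_map]
  unfold zetaC
  rw [PowerSeries.coeff_mk, PowerSeries.coeff_mk]
  split_ifs with h0
  · rfl
  · rw [← hM, ← hM, map_mul, map_mul]
    congr 1
    have h1 := congrArg E (chi_JetC_gcd M h hk d)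
    rw [map_mul, map_mul, map_sub, map_one, hL] at h1
    exact mul_left_cancel₀ (sub_ne_zero.2 hu) h1

theorem zetaC_gcd {σ : Type} [Fintype σ] {f : MvPolynomial σ ℂ} {c : σ → ℤ} {g : ℕ}
    (h : HomW f c g) {k : ℕ} (hk : 0 < k) :
    PowerSeries.C (((Lu ℂ : (MK ℂ)ˣ) : MK ℂ) - 1) * zetaC f k =
      PowerSeries.C (((Lu ℂ : (MK ℂ)ˣ) : MK ℂ) - 1) * zetaC f (Nat.gcd k g) := by
  obtain ⟨M, hL, hM⟩ := exists_meas ℂ
  ext d
  rw [PowerSeries.coeff_C_mul, PowerSeries.coeff_C_mul]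
  unfold zetaC
  rw [PowerSeries.coeff_mk, PowerSeries.coeff_mk]
  split_ifs with h0
  · rfl
  · rw [← hM, ← hM, ← mul_assoc, ← mul_assoc, ← hL, chi_JetC_gcd M h hk d]

/-- the uniqueness of the topological zeta function -/
theorem isTop_unique {R : Type} [CommRing R] [IsDomain R] {E : MK ℂ →+* R} {ε : R →+* ℂ}
    {Zm Zm' : PowerSeries (MK ℂ)} (hm : PowerSeries.map E Zm = PowerSeries.map E Zm')
    {Z Z' : RatFunc ℂ} (h : IsTopZeta E ε Zm Z) (h' : IsTopZeta E ε Zm' Z') : Z = Z' := by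
  have h1 : Z.num * Z'.denom = Z'.num * Z.denom := by
    refine poly_eq_of_nat fun s hs => ?_
    obtain ⟨c, hc, hc'⟩ := h s hs
    obtain ⟨d, hd, hd'⟩ := h' s hs
    rw [← hm] at hd
    have h6 := specAt_unique hc hd
    subst h6
    rw [Polynomial.eval_mul, Polynomial.eval_mul, hc', hd']
    ring
  have h2 := congrArg (algebraMap (Polynomial ℂ) (RatFunc ℂ)) h1
  rw [map_mul, map_mul] at h2
  have h6 : algebraMap (Polynomial ℂ) (RatFunc ℂ) Z.denom ≠ 0 := by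
    rw [Ne, map_eq_zero_iff _ (RatFunc.algebraMap_injective ℂ)]
    exact Z.denom_ne_zero
  have h7 : algebraMap (Polynomial ℂ) (RatFunc ℂ) Z'.denom ≠ 0 := by
    rw [Ne, map_eq_zero_iff _ (RatFunc.algebraMap_injective ℂ)]
    exact Z'.denom_ne_zero
  rw [← RatFunc.num_div_denom Z, ← RatFunc.num_div_denom Z', div_eq_div_iff h6 h7]
  exact h2

/-- the Möbius inversion of a function of `gcd(n, g)` -/
theorem mob_gcd_zero {A : Type} [Ring A] {e g : ℕ} (he : 0 < e) (hg : 0 < g) (h : ¬ e ∣ g)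
    (Y : ℕ → A) : ∑ q ∈ e.divisorsAntidiagonal,
      ((ArithmeticFunction.moebius q.1 : ℤ) : A) * Y (Nat.gcd q.2 g) = 0 := by
  set H : ℕ → A := fun n => ∑ q ∈ n.divisorsAntidiagonal,
    ((ArithmeticFunction.moebius q.1 : ℤ) : A) * Y q.2 with hH
  have h1 : ∀ n > 0, ∑ i ∈ n.divisors, H i = Y n :=
    (ArithmeticFunction.sum_eq_iff_sum_mul_moebius_eq (f := H) (g := Y)).2 fun n _ => rfl
  have h2 := (ArithmeticFunction.sum_eq_iff_sum_mul_moebius_eq
    (f := fun i => if i ∣ g then H i else 0) (g := fun n => Y (Nat.gcd n g))).1 (fun n hn => by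
      rw [← Finset.sum_filter]
      have h3 : n.divisors.filter (fun i => i ∣ g) = (Nat.gcd n g).divisors := by
        ext i
        rw [Finset.mem_filter, Nat.mem_divisors, Nat.mem_divisors, Nat.dvd_gcd_iff]
        have h4 : Nat.gcd n g ≠ 0 := (Nat.gcd_pos_of_pos_left g hn).ne'
        constructor
        · rintro ⟨⟨h5, _⟩, h6⟩
          exact ⟨⟨h5, h6⟩, h4⟩
        · rintro ⟨⟨h5, h6⟩, _⟩
          exact ⟨⟨h5, hn.ne'⟩, h6⟩
      rw [h3]
      exact h1 _ (Nat.gcd_pos_of_pos_left g hn)) e he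
  rw [h2, if_neg h]

/-- **The vanishing of the twisted motivic zeta functions.** -/
theorem motivic_zero {σ : Type} [Fintype σ] {f : MvPolynomial σ ℂ} {c : σ → ℤ} {g : ℕ}
    (hg : 0 < g) (h : HomW f c g) {e : ℕ} (he : 0 < e) (hne : ¬ e ∣ g) :
    PowerSeries.C (((Lu ℂ : (MK ℂ)ˣ) : MK ℂ) - 1) * ∑ q ∈ e.divisorsAntidiagonal,
      ((ArithmeticFunction.moebius q.1 : ℤ) : PowerSeries (MK ℂ)) * zetaC f q.2 = 0 := by
  have h1 := mob_gcd_zero he hg hne (zetaC f)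
  rw [← mul_zero (PowerSeries.C (((Lu ℂ : (MK ℂ)ˣ) : MK ℂ) - 1)), ← h1, Finset.mul_sum,
    Finset.mul_sum]
  refine Finset.sum_congr rfl fun q hq => ?_
  have h3 : 0 < q.2 := Nat.pos_of_dvd_of_pos
    (Dvd.intro_left q.1 (Nat.mem_divisorsAntidiagonal.1 hq).1) he
  rw [mul_left_comm, zetaC_gcd h h3, mul_left_comm]

/-- **The vanishing of the twisted topological zeta functions.** -/
theorem twisted_zero {σ : Type} [Fintype σ] {R : Type} [CommRing R] [IsDomain R]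
    {E : MK ℂ →+* R} {ε : R →+* ℂ} (hu : E ((Lu ℂ : (MK ℂ)ˣ) : MK ℂ) ≠ 1)
    {f : MvPolynomial σ ℂ} {c : σ → ℤ} {g : ℕ} (hg : 0 < g) (h : HomW f c g) {e : ℕ}
    (he : 0 < e) (hne : ¬ e ∣ g) {Z : RatFunc ℂ} (hZ : IsTwistedTop E ε f e Z) : Z = 0 := by
  obtain ⟨Y, hY, hYZ⟩ := hZ
  have h1 : ∑ q ∈ e.divisorsAntidiagonal,
      ((ArithmeticFunction.moebius q.1 : ℤ) : RatFunc ℂ) * Y q.2 = 0 := by
    rw [← mob_gcd_zero he hg hne Y]
    refine Finset.sum_congr rfl fun q hq => ?_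
    have h3 : q.2 ∣ e := Dvd.intro_left q.1 (Nat.mem_divisorsAntidiagonal.1 hq).1
    rw [isTop_unique (map_zetaC E hu h (Nat.pos_of_dvd_of_pos h3 he)) (hY _ h3)
      (hY _ ((Nat.gcd_dvd_left _ _).trans h3))]
  rw [h1] at hYZ
  have hφ : (Nat.totient e : RatFunc ℂ) ≠ 0 := by
    have h2 : 0 < Nat.totient e := Nat.totient_pos.2 he
    exact_mod_cast h2.ne'
  exact (mul_eq_zero.1 hYZ).resolve_left hφ

end Pool.Agent.Run7.h827.HL
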